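import Mathlib
import Pool.Agent.H523R3.TransMain

/-!
# Simplicial 3-polytopes with transversal ratio close to one half
-/

set_option autoImplicit false

namespace Pool.Agent.W295.Trans

open Set Filter Topology Pool.Agent.H523R3.Frames Pool.Agent.H523R3.Trans

/-- The counting lemma for a chain of complete graphs on four vertices. -/
theorem chain_bound (w : ℕ → ℕ → ℕ) (hw : ∀ j t, w j t ≤ 1) (m : ℕ)
    (h1 : ∀ j < m, 1 ≤ w j 0 + w j 2 + w j 3)
    (h2 : ∀ j < m, 1 ≤ w j 1 + w j 2 + w j 3)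
    (h3 : 0 < m → 1 ≤ w 0 0 + w 0 1 + w 0 3)
    (h4 : ∀ j, j + 1 < m → 1 ≤ w (j+1) 0 + w (j+1) 1 + w j 1)
    (h5 : ∀ j, j + 1 < m → 1 ≤ w (j+1) 1 + w (j+1) 3 + w j 2)
    (h6 : ∀ j, j + 1 < m → 1 ≤ w (j+1) 0 + w (j+1) 3 + w j 0)
    (h7 : ∀ j, j + 1 < m → 1 ≤ w (j+1) 0 + w j 0 + w j 1)
    (h8 : ∀ j, j + 1 < m → 1 ≤ w (j+1) 1 + w j 1 + w j 2)
    (h9 : ∀ j, j + 1 < m → 1 ≤ w (j+1) 3 + w j 2 + w j 0) :
    ∀ j < m, 2 * (j + 1) ≤ 1 + ∑ i ∈ Finset.range (j + 1), (w i 0 + w i 1 + w i 2 + w i 3) ∧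
      (1 ≤ w j 0 + w j 1 + w j 2 →
        2 * (j + 1) ≤ ∑ i ∈ Finset.range (j + 1), (w i 0 + w i 1 + w i 2 + w i 3)) ∧
      (3 ≤ w j 0 + w j 1 + w j 2 →
        2 * (j + 1) + 1 ≤ ∑ i ∈ Finset.range (j + 1), (w i 0 + w i 1 + w i 2 + w i 3)) := by
  intro j
  induction j with
  | zero =>
    intro hm
    have := h1 0 hm
    have := h2 0 hm
    have := h3 hm
    have := hw 0 0
    have := hw 0 1
    have := hw 0 2
    have := hw 0 3
    simp only [Finset.sum_range_succ, Finset.sum_range_zero]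
    omega
  | succ j ih =>
    intro hm
    have ih := ih (by omega)
    have := h1 (j+1) hm
    have := h2 (j+1) hm
    have := h4 j hm
    have := h5 j hm
    have := h6 j hm
    have := h7 j hm
    have := h8 j hm
    have := h9 j hm
    have := hw j 0
    have := hw j 1
    have := hw j 2
    have := hw j 3
    have := hw (j+1) 0
    have := hw (j+1) 1
    have := hw (j+1) 2
    have := hw (j+1) 3
    rw [Finset.sum_range_succ _ (j + 1)]
    omega

/-- first height function -/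
def H0 (j t : ℕ) : ℤ :=
  if t = 0 then j + 1 else if t = 1 then -3 * j - 1 else if t = 2 then -3 * j - 2 else -3 * j

/-- second height function -/
def H1 (j t : ℕ) : ℤ :=
  if t = 0 then -3 * j - 2 else if t = 1 then j + 1 else if t = 2 then -3 * j - 1 else -3 * j

/-- third height function -/
def H2 (j t : ℕ) : ℤ :=
  if t = 0 then -2 * j else if t = 1 then -2 * j - 1 else if t = 2 then 2 * j + 2 else 2 * j + 1

/-- the three height functions on `Fin n` -/
def HF (n : ℕ) (k : Fin 3) (i : Fin n) : ℤ :=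
  ![H0 (i.1 / 4) (i.1 % 4), H1 (i.1 / 4) (i.1 % 4), H2 (i.1 / 4) (i.1 % 4)] k

lemma HF0 (n : ℕ) (i : Fin n) : HF n 0 i = H0 (i.1 / 4) (i.1 % 4) := rfl
lemma HF1 (n : ℕ) (i : Fin n) : HF n 1 i = H1 (i.1 / 4) (i.1 % 4) := rfl
lemma HF2 (n : ℕ) (i : Fin n) : HF n 2 i = H2 (i.1 / 4) (i.1 % 4) := rfl

lemma HF_anti (n : ℕ) (i j : Fin n) (hij : i ≠ j) : ∃ k, HF n k i < HF n k j := by
  by_contra hcon
  push Not at hcon
  have h0 := hcon 0
  have h1 := hcon 1
  have h2 := hcon 2
  rw [HF0, HF0] at h0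
  rw [HF1, HF1] at h1
  rw [HF2, HF2] at h2
  apply hij
  apply Fin.ext
  unfold H0 at h0
  unfold H1 at h1
  unfold H2 at h2
  have hi : i.1 % 4 < 4 := Nat.mod_lt _ (by norm_num)
  have hj : j.1 % 4 < 4 := Nat.mod_lt _ (by norm_num)
  have hi' := Nat.div_add_mod i.1 4
  have hj' := Nat.div_add_mod j.1 4
  split_ifs at h0 h1 h2 <;> omega

/-- the vertex of level `j` and kind `t` -/
def vx (m j t : ℕ) (hj : j < m) (ht : t < 4) : Fin (4 * m) := ⟨4 * j + t, by omega⟩

/-- a frame for the height functions -/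
structure Fr (m j0 t0 j1 t1 j2 t2 : ℕ) : Prop where
  a1 : H0 j1 t1 < H0 j0 t0
  a2 : H0 j2 t2 < H0 j0 t0
  b0 : H1 j0 t0 < H1 j1 t1
  b2 : H1 j2 t2 < H1 j1 t1
  c0 : H2 j0 t0 < H2 j2 t2
  c1 : H2 j1 t1 < H2 j2 t2
  out : ∀ j t, t < 4 → (j ≠ j0 ∨ t ≠ t0) → (j ≠ j1 ∨ t ≠ t1) → (j ≠ j2 ∨ t ≠ t2) →
    H0 j t ≤ H0 j0 t0 → H1 j t ≤ H1 j1 t1 → H2 j t ≤ H2 j2 t2 → False

lemma facet_of_Fr {m j0 t0 j1 t1 j2 t2 : ℕ} (h0 : j0 < m) (k0 : t0 < 4) (h1 : j1 < m) (k1 : t1 < 4)
    (h2 : j2 < m) (k2 : t2 < 4) (hfr : Fr m j0 t0 j1 t1 j2 t2) {s : ℝ} (hs : 0 < s)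
    (hF : ∀ (k : Fin 3) (i j : Fin (4 * m)), HF (4 * m) k i < HF (4 * m) k j →
      4 * (3 : ℕ) * crd (HF (4 * m)) s k i ≤ crd (HF (4 * m)) s k j)
    (hp : IsSimplicialPolytope 3 (pt (HF (4 * m)) s)) :
    IsFacet (boundary (pt (HF (4 * m)) s))
      (Finset.univ.image ![vx m j0 t0 h0 k0, vx m j1 t1 h1 k1, vx m j2 t2 h2 k2]) := by
  have hdiv : ∀ j t, t < 4 → (4 * j + t) / 4 = j := by intro j t ht; omega
  have hmod : ∀ j t, t < 4 → (4 * j + t) % 4 = t := by intro j t ht; omega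
  have e0 : ∀ j t (hj : j < m) (ht : t < 4), HF (4 * m) 0 (vx m j t hj ht) = H0 j t := by
    intro j t hj ht
    rw [HF0]
    show H0 ((4 * j + t) / 4) ((4 * j + t) % 4) = _
    rw [hdiv j t ht, hmod j t ht]
  have e1 : ∀ j t (hj : j < m) (ht : t < 4), HF (4 * m) 1 (vx m j t hj ht) = H1 j t := by
    intro j t hj ht
    rw [HF1]
    show H1 ((4 * j + t) / 4) ((4 * j + t) % 4) = _
    rw [hdiv j t ht, hmod j t ht]
  have e2 : ∀ j t (hj : j < m) (ht : t < 4), HF (4 * m) 2 (vx m j t hj ht) = H2 j t := by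
    intro j t hj ht
    rw [HF2]
    show H2 ((4 * j + t) / 4) ((4 * j + t) % 4) = _
    rw [hdiv j t ht, hmod j t ht]
  apply isFacet_of_frame (by norm_num) (HF (4 * m)) hs hF hp
  · intro k l hkl
    obtain ⟨a1, a2, b0, b2, c0, c1, -⟩ := hfr
    fin_cases k <;> fin_cases l <;> first | exact absurd rfl hkl | skip
    · show HF (4 * m) 0 (vx m j1 t1 h1 k1) < HF (4 * m) 0 (vx m j0 t0 h0 k0)
      rw [e0, e0]; exact a1
    · show HF (4 * m) 0 (vx m j2 t2 h2 k2) < HF (4 * m) 0 (vx m j0 t0 h0 k0)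
      rw [e0, e0]; exact a2
    · show HF (4 * m) 1 (vx m j0 t0 h0 k0) < HF (4 * m) 1 (vx m j1 t1 h1 k1)
      rw [e1, e1]; exact b0
    · show HF (4 * m) 1 (vx m j2 t2 h2 k2) < HF (4 * m) 1 (vx m j1 t1 h1 k1)
      rw [e1, e1]; exact b2
    · show HF (4 * m) 2 (vx m j0 t0 h0 k0) < HF (4 * m) 2 (vx m j2 t2 h2 k2)
      rw [e2, e2]; exact c0
    · show HF (4 * m) 2 (vx m j1 t1 h1 k1) < HF (4 * m) 2 (vx m j2 t2 h2 k2)
      rw [e2, e2]; exact c1
  · intro v hv
    by_contra hcon
    push Not at hcon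
    have g0 : HF (4 * m) 0 v ≤ HF (4 * m) 0 (vx m j0 t0 h0 k0) := hcon 0
    have g1 : HF (4 * m) 1 v ≤ HF (4 * m) 1 (vx m j1 t1 h1 k1) := hcon 1
    have g2 : HF (4 * m) 2 v ≤ HF (4 * m) 2 (vx m j2 t2 h2 k2) := hcon 2
    rw [e0, HF0] at g0
    rw [e1, HF1] at g1
    rw [e2, HF2] at g2
    have v0 : v ≠ vx m j0 t0 h0 k0 := hv 0
    have v1 : v ≠ vx m j1 t1 h1 k1 := hv 1
    have v2 : v ≠ vx m j2 t2 h2 k2 := hv 2
    have key : ∀ j t (hj : j < m) (ht : t < 4), v ≠ vx m j t hj ht → (v.1 / 4 ≠ j ∨ v.1 % 4 ≠ t) := by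
      intro j t hj ht hne
      by_contra hc
      push Not at hc
      apply hne
      apply Fin.ext
      show v.1 = 4 * j + t
      omega
    exact hfr.out _ _ (Nat.mod_lt _ (by norm_num)) (key _ _ _ _ v0) (key _ _ _ _ v1)
      (key _ _ _ _ v2) g0 g1 g2

/-- the number of vertices of kind `t` and level `j` in `W` -/
def wt (m : ℕ) (W : Finset (Fin (4 * m))) (j t : ℕ) : ℕ :=
  (W.filter (fun v => v.1 = 4 * j + t)).card

lemma wt_le_one (m : ℕ) (W : Finset (Fin (4 * m))) (j t : ℕ) : wt m W j t ≤ 1 := by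
  apply Finset.card_le_one.2
  intro a ha b hb
  rw [Finset.mem_filter] at ha hb
  apply Fin.ext
  omega

lemma wt_pos {m : ℕ} {W : Finset (Fin (4 * m))} {j t : ℕ} (hj : j < m) (ht : t < 4)
    (h : vx m j t hj ht ∈ W) : 1 ≤ wt m W j t := by
  apply Finset.card_pos.2
  exact ⟨_, Finset.mem_filter.2 ⟨h, rfl⟩⟩

lemma sum_wt_le (m : ℕ) (W : Finset (Fin (4 * m))) :
    ∑ i ∈ Finset.range m, (wt m W i 0 + wt m W i 1 + wt m W i 2 + wt m W i 3) ≤ W.card := by
  classical
  have h1 : W.card = ∑ i ∈ Finset.range m, (W.filter (fun v => v.1 / 4 = i)).card := by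
    apply Finset.card_eq_sum_card_fiberwise
    intro v _
    have := v.2
    simp only [Finset.coe_range, Set.mem_Iio]
    omega
  rw [h1]
  apply Finset.sum_le_sum
  intro i _
  unfold wt
  have hd : ∀ s t : ℕ, s ≠ t → Disjoint (W.filter (fun v => v.1 = 4 * i + s))
      (W.filter (fun v => v.1 = 4 * i + t)) := by
    intro s t hst
    rw [Finset.disjoint_left]
    intro v hv hv'
    rw [Finset.mem_filter] at hv hv'
    omega
  rw [← Finset.card_union_of_disjoint (hd 0 1 (by norm_num)),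
    ← Finset.card_union_of_disjoint, ← Finset.card_union_of_disjoint]
  · apply Finset.card_le_card
    intro v hv
    simp only [Finset.mem_union, Finset.mem_filter] at hv ⊢
    rcases hv with ((h | h) | h) | h <;> exact ⟨h.1, by omega⟩
  · simp only [Finset.disjoint_union_left]
    exact ⟨⟨hd 0 3 (by norm_num), hd 1 3 (by norm_num)⟩, hd 2 3 (by norm_num)⟩
  · simp only [Finset.disjoint_union_left]
    exact ⟨hd 0 2 (by norm_num), hd 1 2 (by norm_num)⟩

/-- For every `m ≥ 1` there is a simplicial 3-polytope with `4 m` vertices and transversal ratio at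
least `(2 m - 1) / (4 m)`. -/
theorem exists_three (m : ℕ) (hm : 1 ≤ m) : ∃ p : Fin (4 * m) → E 3, IsSimplicialPolytope 3 p ∧
    ((2 * m - 1 : ℕ) : ℝ) / ((4 * m : ℕ) : ℝ) ≤ transversalRatio (boundary p) := by
  classical
  obtain ⟨s, hs, hF, hgp⟩ := exists_paramD (by norm_num : 0 < 3) (HF (4 * m))
  have hp := isSimplicialPolytope_pt (by norm_num : 0 < 3) (by omega) (HF (4 * m))
    (HF_anti (4 * m)) hs hF hgp
  refine ⟨pt (HF (4 * m)) s, hp, ?_⟩
  unfold transversalRatio
  apply div_le_div_of_nonneg_right _ (by positivity)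
  have hne : {k | ∃ W, IsTransversal (boundary (pt (HF (4 * m)) s)) W ∧ W.card = k}.Nonempty := by
    refine ⟨_, Finset.univ, ?_, rfl⟩
    have hΔ := isComplex_boundary (by norm_num : 0 < 3) hp
    intro t ht
    have hne : t.Nonempty := by
      by_contra hcon
      rw [Finset.not_nonempty_iff_eq_empty] at hcon
      have := ht.2 {⟨0, by omega⟩} (hΔ.vert _) (by rw [hcon]; exact Finset.empty_subset _)
      rw [hcon] at this
      exact Finset.singleton_ne_empty _ this
    obtain ⟨v, hv⟩ := hne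
    exact ⟨v, hv, Finset.mem_univ v⟩
  obtain ⟨W, hW, hWcard⟩ := Nat.sInf_mem hne
  unfold transversalNumber
  rw [← hWcard]
  have hkey : ∀ {j0 t0 j1 t1 j2 t2 : ℕ} (h0 : j0 < m) (k0 : t0 < 4) (h1 : j1 < m) (k1 : t1 < 4)
      (h2 : j2 < m) (k2 : t2 < 4), Fr m j0 t0 j1 t1 j2 t2 →
      1 ≤ wt m W j0 t0 + wt m W j1 t1 + wt m W j2 t2 := by
    intro j0 t0 j1 t1 j2 t2 h0 k0 h1 k1 h2 k2 hfr
    obtain ⟨v, hv, hvW⟩ := hW _ (facet_of_Fr h0 k0 h1 k1 h2 k2 hfr hs hF hp)
    rw [Finset.mem_image] at hv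
    obtain ⟨k, -, hk⟩ := hv
    fin_cases k
    · have h : vx m j0 t0 h0 k0 = v := hk
      rw [← h] at hvW
      have := wt_pos h0 k0 hvW
      omega
    · have h : vx m j1 t1 h1 k1 = v := hk
      rw [← h] at hvW
      have := wt_pos h1 k1 hvW
      omega
    · have h : vx m j2 t2 h2 k2 = v := hk
      rw [← h] at hvW
      have := wt_pos h2 k2 hvW
      omega
  have hb := chain_bound (wt m W) (wt_le_one m W) m
    (fun j hj => by
      -- a, d, c
      have := hkey hj (by norm_num) hj (by norm_num) hj (by norm_num)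
        (show Fr m j 0 j 3 j 2 from by
          constructor <;> simp only [H0, H1, H2] <;> intros <;> split_ifs at * <;> omega)
      omega)
    (fun j hj => by
      -- d, b, c
      have := hkey hj (by norm_num) hj (by norm_num) hj (by norm_num)
        (show Fr m j 3 j 1 j 2 from by
          constructor <;> simp only [H0, H1, H2] <;> intros <;> split_ifs at * <;> omega)
      omega)
    (fun hm0 => by
      -- a, b, d
      have := hkey hm0 (by norm_num) hm0 (by norm_num) hm0 (by norm_num)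
        (show Fr m 0 0 0 1 0 3 from by
          constructor <;> simp only [H0, H1, H2] <;> intros <;> split_ifs at * <;> omega)
      omega)
    (fun j hj => by
      -- A, B, b
      have := hkey hj (by norm_num) hj (by norm_num) (show j < m by omega) (by norm_num)
        (show Fr m (j+1) 0 (j+1) 1 j 1 from by
          constructor <;> simp only [H0, H1, H2] <;> intros <;> split_ifs at * <;> omega)
      omega)
    (fun j hj => by
      -- B, D, c
      have := hkey (show j < m by omega) (by norm_num) hj (by norm_num) hj (by norm_num)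
        (show Fr m j 2 (j+1) 1 (j+1) 3 from by
          constructor <;> simp only [H0, H1, H2] <;> intros <;> split_ifs at * <;> omega)
      omega)
    (fun j hj => by
      -- A, D, a
      have := hkey hj (by norm_num) (show j < m by omega) (by norm_num) hj (by norm_num)
        (show Fr m (j+1) 0 j 0 (j+1) 3 from by
          constructor <;> simp only [H0, H1, H2] <;> intros <;> split_ifs at * <;> omega)
      omega)
    (fun j hj => by
      -- A, a, b
      have := hkey hj (by norm_num) (show j < m by omega) (by norm_num) (show j < m by omega)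
        (by norm_num)
        (show Fr m (j+1) 0 j 1 j 0 from by
          constructor <;> simp only [H0, H1, H2] <;> intros <;> split_ifs at * <;> omega)
      omega)
    (fun j hj => by
      -- B, b, c
      have := hkey (show j < m by omega) (by norm_num) hj (by norm_num) (show j < m by omega)
        (by norm_num)
        (show Fr m j 1 (j+1) 1 j 2 from by
          constructor <;> simp only [H0, H1, H2] <;> intros <;> split_ifs at * <;> omega)
      omega)
    (fun j hj => by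
      -- D, c, a
      have := hkey (show j < m by omega) (by norm_num) (show j < m by omega) (by norm_num) hj
        (by norm_num)
        (show Fr m j 0 j 2 (j+1) 3 from by
          constructor <;> simp only [H0, H1, H2] <;> intros <;> split_ifs at * <;> omega)
      omega)
    (m - 1) (by omega)
  have hs := sum_wt_le m W
  have h1 := hb.1
  rw [show m - 1 + 1 = m by omega] at h1
  have h2 : 2 * m - 1 ≤ W.card := by omega
  exact_mod_cast h2

end Pool.Agent.W295.Trans
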