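import Mathlib
import Pool.Agent.H523R3.TransMain

/-!
# Transversals of simplicial circles
-/

set_option autoImplicit false

namespace Pool.Agent.W295.Trans

open Set Filter Topology Pool.Agent.H523R3.Trans

section circle

variable {n : ℕ} {Δ : Set (Finset (Fin n))}

/-- the point of the realisation which is a vertex -/
lemma single_mem (hΔ : IsComplex Δ) (v : Fin n) : (Pi.single v (1 : ℝ) : Fin n → ℝ) ∈ realization Δ := by
  classical
  refine ⟨fun i => ?_, ?_, ?_⟩
  · by_cases h : i = v
    · subst h; simp
    · simp [Pi.single_eq_of_ne h]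
  · simp
  · have : Finset.univ.filter (fun i => (Pi.single v (1 : ℝ) : Fin n → ℝ) i ≠ 0) = {v} := by
      ext i
      simp only [Finset.mem_filter, Finset.mem_univ, true_and, Finset.mem_singleton]
      constructor
      · intro h
        by_contra hne
        exact h (Pi.single_eq_of_ne hne _)
      · rintro rfl
        simp
    rw [this]
    exact hΔ.vert v

/-- the segment between two adjacent vertices -/
lemma seg_mem (hΔ : IsComplex Δ) {u v : Fin n} (huv : ({u, v} : Finset (Fin n)) ∈ Δ)
    {t : ℝ} (ht0 : 0 ≤ t) (ht1 : t ≤ 1) :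
    (fun i => (1 - t) * (Pi.single u (1 : ℝ) : Fin n → ℝ) i +
      t * (Pi.single v (1 : ℝ) : Fin n → ℝ) i) ∈ realization Δ := by
  classical
  refine ⟨fun i => ?_, ?_, ?_⟩
  · have h1 := (single_mem hΔ u).1 i
    have h2 := (single_mem hΔ v).1 i
    have : 0 ≤ 1 - t := by linarith
    positivity
  · rw [Finset.sum_add_distrib, ← Finset.mul_sum, ← Finset.mul_sum, (single_mem hΔ u).2.1,
      (single_mem hΔ v).2.1]
    ring
  · refine hΔ.down _ huv _ ?_
    intro i hi
    simp only [Finset.mem_filter, Finset.mem_univ, true_and] at hi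
    simp only [Finset.mem_insert, Finset.mem_singleton]
    by_contra hcon
    push Not at hcon
    apply hi
    rw [Pi.single_eq_of_ne hcon.1, Pi.single_eq_of_ne hcon.2]
    ring

/-- A simplicial circle with `n` vertices has a transversal with at most `(n + 1) / 2` vertices. -/
theorem exists_transversal (h : IsSimplicialSphere 2 Δ) :
    0 < n ∧ ∃ W, IsTransversal Δ W ∧ 2 * W.card ≤ n + 1 := by
  classical
  obtain ⟨hΔ, ⟨φ⟩⟩ := h
  have hfact : Fact (Module.finrank ℝ (E 2) = 1 + 1) := ⟨by simp⟩
  have hrank : 1 < Module.rank ℝ (E 2) := by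
    rw [← Module.finrank_eq_rank]
    simp
  have hconn : IsConnected (Metric.sphere (0 : E 2) 1) := isConnected_sphere hrank 0 zero_le_one
  obtain ⟨y, hy⟩ := hconn.nonempty
  have hn : 0 < n := by
    by_contra hcon
    have hn0 : n = 0 := by omega
    subst hn0
    have := (φ.symm ⟨y, hy⟩).2.2.1
    simp at this
  refine ⟨hn, ?_⟩
  let w0 : Fin n := ⟨0, hn⟩
  let e : Fin n → realization Δ := fun v => ⟨Pi.single v (1 : ℝ), single_mem hΔ v⟩
  have he : Function.Injective e := by
    intro u v huv
    by_contra hne
    have h1 : (Pi.single u (1 : ℝ) : Fin n → ℝ) = Pi.single v 1 := congrArg Subtype.val huv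
    have h2 := congrFun h1 u
    rw [Pi.single_eq_same, Pi.single_eq_of_ne hne] at h2
    exact one_ne_zero h2
  -- the coordinate on the complement of the base vertex
  let x0 : Metric.sphere (0 : E 2) 1 := φ (e w0)
  let st := stereographic' 1 x0
  let g : realization Δ → ℝ := fun x => (st (φ x)).ofLp 0
  have hsrc : ∀ x : realization Δ, x ≠ e w0 → φ x ∈ st.source := by
    intro x hx
    rw [stereographic'_source]
    intro hcon
    exact hx (φ.injective hcon)
  have hginj : ∀ x y : realization Δ, x ≠ e w0 → y ≠ e w0 → g x = g y → x = y := by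
    intro x y hx hy hxy
    apply φ.injective
    apply st.injOn (hsrc x hx) (hsrc y hy)
    ext i
    have : i = 0 := Subsingleton.elim _ _
    rw [this]
    exact hxy
  have hgcont : ContinuousOn g {x | x ≠ e w0} := by
    have h1 : ContinuousOn (fun x => st (φ x)) {x | x ≠ e w0} :=
      st.continuousOn.comp φ.continuous.continuousOn (fun x hx => hsrc x hx)
    have h2 : Continuous (fun z : EuclideanSpace ℝ (Fin 1) => z.ofLp 0) := by fun_prop
    exact h2.comp_continuousOn h1
  -- edges join consecutive vertices
  have hedge : ∀ u v : Fin n, u ≠ w0 → v ≠ w0 → u ≠ v → ({u, v} : Finset (Fin n)) ∈ Δ →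
      ∀ w : Fin n, w ≠ w0 → ¬ (g (e u) < g (e w) ∧ g (e w) < g (e v)) := by
    intro u v hu hv huv hΔuv w hw hlt
    let c : ℝ → realization Δ := fun t =>
      if ht : 0 ≤ t ∧ t ≤ 1 then ⟨_, seg_mem hΔ hΔuv ht.1 ht.2⟩ else e u
    have hcne : ∀ t, c t ≠ e w0 := by
      intro t
      by_cases ht : 0 ≤ t ∧ t ≤ 1
      · intro hcon
        have h1 : (c t).1 w0 = (e w0).1 w0 := by rw [hcon]
        simp only [c, ht, and_self, dif_pos] at h1
        rw [Pi.single_eq_of_ne (Ne.symm hu), Pi.single_eq_of_ne (Ne.symm hv)] at h1
        simp [e] at h1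
      · simp only [c, ht, dif_neg, not_false_eq_true]
        intro hcon
        exact hu (he hcon)
    have hccont : ContinuousOn c (Icc 0 1) := by
      rw [continuousOn_iff_continuous_domRestrict]
      apply continuous_induced_rng.2
      have : (Subtype.val ∘ (Icc (0 : ℝ) 1).domRestrict c) = fun t : Icc (0 : ℝ) 1 =>
          (fun i => (1 - t.1) * (Pi.single u (1 : ℝ) : Fin n → ℝ) i +
            t.1 * (Pi.single v (1 : ℝ) : Fin n → ℝ) i) := by
        funext t
        have ht : 0 ≤ t.1 ∧ t.1 ≤ 1 := t.2
        show (c t.1).1 = _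
        simp only [c, ht, and_self, dif_pos]
      rw [this]
      fun_prop
    have hc0 : c 0 = e u := by
      apply Subtype.ext
      simp [c, e]
    have hc1 : c 1 = e v := by
      apply Subtype.ext
      simp [c, e]
    have hgc : ContinuousOn (g ∘ c) (Icc 0 1) :=
      hgcont.comp hccont (fun t _ => hcne t)
    have hivt := intermediate_value_Icc (zero_le_one) hgc
    have hmem : g (e w) ∈ Icc ((g ∘ c) 0) ((g ∘ c) 1) := by
      simp only [Function.comp_apply, hc0, hc1]
      exact ⟨hlt.1.le, hlt.2.le⟩
    obtain ⟨t, ht, htw⟩ := hivt hmem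
    have h1 : c t = e w := by
      apply hginj _ _ (hcne t) (fun hcon => hw (he hcon)) htw
    have hwu : w ≠ u := by rintro rfl; exact lt_irrefl _ hlt.1
    have hwv : w ≠ v := by rintro rfl; exact lt_irrefl _ hlt.2
    have h2 : (c t).1 w = (e w).1 w := by rw [h1]
    have ht' : 0 ≤ t ∧ t ≤ 1 := ht
    simp only [c, ht', and_self, dif_pos] at h2
    rw [Pi.single_eq_of_ne hwu, Pi.single_eq_of_ne hwv] at h2
    simp [e] at h2
  -- ranks
  let r : Fin n → ℕ := fun u => (Finset.univ.filter (fun w => w ≠ w0 ∧ g (e w) < g (e u))).card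
  have hrank : ∀ u v : Fin n, u ≠ w0 → v ≠ w0 → g (e u) < g (e v) → ({u, v} : Finset (Fin n)) ∈ Δ →
      r v = r u + 1 := by
    intro u v hu hv hlt hΔuv
    have huv : u ≠ v := by rintro rfl; exact lt_irrefl _ hlt
    have : Finset.univ.filter (fun w => w ≠ w0 ∧ g (e w) < g (e v)) =
        insert u (Finset.univ.filter (fun w => w ≠ w0 ∧ g (e w) < g (e u))) := by
      ext w
      simp only [Finset.mem_filter, Finset.mem_univ, true_and, Finset.mem_insert]
      constructor
      · rintro ⟨h1, h2⟩
        rcases lt_trichotomy (g (e w)) (g (e u)) with h3 | h3 | h3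
        · exact Or.inr ⟨h1, h3⟩
        · left
          exact he (hginj _ _ (fun hcon => h1 (he hcon)) (fun hcon => hu (he hcon)) h3)
        · exact absurd ⟨h3, h2⟩ (hedge u v hu hv huv hΔuv w h1)
      · rintro (rfl | ⟨h1, h2⟩)
        · exact ⟨hu, hlt⟩
        · exact ⟨h1, h2.trans hlt⟩
    show (Finset.univ.filter (fun w => w ≠ w0 ∧ g (e w) < g (e v))).card = _
    rw [this, Finset.card_insert_of_notMem]
    simp
  have hpar : ∀ u v : Fin n, u ≠ w0 → v ≠ w0 → u ≠ v → ({u, v} : Finset (Fin n)) ∈ Δ →
      r v = r u + 1 ∨ r u = r v + 1 := by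
    intro u v hu hv huv hΔuv
    rcases lt_trichotomy (g (e u)) (g (e v)) with h3 | h3 | h3
    · exact Or.inl (hrank u v hu hv h3 hΔuv)
    · exact absurd (he (hginj _ _ (fun hcon => hu (he hcon)) (fun hcon => hv (he hcon)) h3)) huv
    · exact Or.inr (hrank v u hv hu h3 (by rw [Finset.pair_comm]; exact hΔuv))
  -- no isolated vertex
  have hiso : ∀ u : Fin n, u ≠ w0 → ¬ IsFacet Δ {u} := by
    intro u hu hfac
    have hpre : PreconnectedSpace (realization Δ) := by
      have : PreconnectedSpace (Metric.sphere (0 : E 2) 1) :=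
        Subtype.preconnectedSpace hconn.isPreconnected
      exact φ.symm.surjective.denseRange.preconnectedSpace φ.symm.continuous
    have hopen : IsOpen ({e u} : Set (realization Δ)) := by
      have : ({e u} : Set (realization Δ)) = {x | 0 < x.1 u} := by
        ext x
        simp only [Set.mem_singleton_iff, Set.mem_ofPred_eq]
        constructor
        · rintro rfl
          simp [e]
        · intro hx
          have hsub : ({u} : Finset (Fin n)) ⊆ Finset.univ.filter (fun i => x.1 i ≠ 0) := by
            intro i hi
            rw [Finset.mem_singleton] at hi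
            subst hi
            simp only [Finset.mem_filter, Finset.mem_univ, true_and]
            exact hx.ne'
          have heq := hfac.2 _ x.2.2.2 hsub
          have hzero : ∀ i, i ≠ u → x.1 i = 0 := by
            intro i hi
            by_contra hcon
            have : i ∈ Finset.univ.filter (fun i => x.1 i ≠ 0) := by simp [hcon]
            rw [heq, Finset.mem_singleton] at this
            exact hi this
          have hone : x.1 u = 1 := by
            have h1 := x.2.2.1
            rw [Finset.sum_eq_single u (fun i _ hi => hzero i hi) (by simp)] at h1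
            exact h1
          apply Subtype.ext
          funext i
          by_cases hi : i = u
          · subst hi
            rw [hone]
            simp [e]
          · rw [hzero i hi]
            simp [e, Pi.single_eq_of_ne hi]
      rw [this]
      exact isOpen_lt continuous_const ((continuous_apply u).comp continuous_subtype_val)
    have hclopen : IsClopen ({e u} : Set (realization Δ)) := ⟨isClosed_singleton, hopen⟩
    have huniv := hclopen.eq_univ (Set.singleton_nonempty _)
    have : e w0 ∈ ({e u} : Set (realization Δ)) := by rw [huniv]; trivial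
    exact hu (he this).symm
  -- the two candidates
  have hcand : ∀ b : ℕ, b < 2 →
      IsTransversal Δ (insert w0 (Finset.univ.filter (fun u => u ≠ w0 ∧ r u % 2 = b))) := by
    intro b hb s hs
    by_cases h0 : w0 ∈ s
    · exact ⟨w0, h0, Finset.mem_insert_self _ _⟩
    have hne : s.Nonempty := by
      by_contra hcon
      rw [Finset.not_nonempty_iff_eq_empty] at hcon
      have := hs.2 {w0} (hΔ.vert _) (by rw [hcon]; exact Finset.empty_subset _)
      rw [hcon] at this
      exact Finset.singleton_ne_empty _ this
    obtain ⟨u, hu⟩ := hne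
    have hu0 : u ≠ w0 := fun hcon => h0 (hcon ▸ hu)
    have hex : ∃ v ∈ s, v ≠ u := by
      by_contra hcon
      push Not at hcon
      have : s = {u} := by
        ext i
        rw [Finset.mem_singleton]
        exact ⟨fun hi => hcon i hi, fun hi => hi ▸ hu⟩
      exact hiso u hu0 (this ▸ hs)
    obtain ⟨v, hv, hvu⟩ := hex
    have hv0 : v ≠ w0 := fun hcon => h0 (hcon ▸ hv)
    have huv : ({u, v} : Finset (Fin n)) ∈ Δ := by
      apply hΔ.down s hs.1
      intro i hi
      simp only [Finset.mem_insert, Finset.mem_singleton] at hi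
      rcases hi with rfl | rfl
      · exact hu
      · exact hv
    have := hpar u v hu0 hv0 (Ne.symm hvu) huv
    by_cases hb' : r u % 2 = b
    · exact ⟨u, hu, by simp [hu0, hb']⟩
    · refine ⟨v, hv, ?_⟩
      simp only [Finset.mem_insert, hv0, Finset.mem_filter, Finset.mem_univ, ne_eq,
        not_false_eq_true, true_and, false_or]
      omega
  have hsum : (Finset.univ.filter (fun u => u ≠ w0 ∧ r u % 2 = 0)).card +
      (Finset.univ.filter (fun u => u ≠ w0 ∧ r u % 2 = 1)).card = n - 1 := by
    rw [← Finset.card_union_of_disjoint]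
    · have : Finset.univ.filter (fun u => u ≠ w0 ∧ r u % 2 = 0) ∪
          Finset.univ.filter (fun u => u ≠ w0 ∧ r u % 2 = 1) = Finset.univ.erase w0 := by
        ext i
        simp only [Finset.mem_union, Finset.mem_filter, Finset.mem_univ, true_and,
          Finset.mem_erase]
        constructor
        · rintro (h | h)
          · exact ⟨h.1, trivial⟩
          · exact ⟨h.1, trivial⟩
        · rintro ⟨h, -⟩
          rcases Nat.mod_two_eq_zero_or_one (r i) with h' | h'
          · exact Or.inl ⟨h, h'⟩
          · exact Or.inr ⟨h, h'⟩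
      rw [this, Finset.card_erase_of_mem (Finset.mem_univ _), Finset.card_univ, Fintype.card_fin]
    · rw [Finset.disjoint_left]
      intro i hi hi'
      simp only [Finset.mem_filter, Finset.mem_univ, true_and] at hi hi'
      omega
  rcases le_total (Finset.univ.filter (fun u => u ≠ w0 ∧ r u % 2 = 0)).card
      (Finset.univ.filter (fun u => u ≠ w0 ∧ r u % 2 = 1)).card with hle | hle
  · refine ⟨_, hcand 0 (by norm_num), ?_⟩
    rw [Finset.card_insert_of_notMem (by simp)]
    omega
  · refine ⟨_, hcand 1 (by norm_num), ?_⟩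
    rw [Finset.card_insert_of_notMem (by simp)]
    omega

/-- The transversal ratio of a simplicial circle. -/
theorem ratio_le (h : IsSimplicialSphere 2 Δ) : transversalRatio Δ ≤ 1 / 2 + 1 / 2 * (1 / (n : ℝ)) := by
  obtain ⟨hn, W, hW, hcard⟩ := exists_transversal h
  have h1 : transversalNumber Δ ≤ W.card := Nat.sInf_le ⟨W, hW, rfl⟩
  have hnR : (0 : ℝ) < n := by exact_mod_cast hn
  unfold transversalRatio
  rw [div_le_iff₀ hnR]
  have h2 : (transversalNumber Δ : ℝ) ≤ W.card := by exact_mod_cast h1
  have h3 : 2 * (W.card : ℝ) ≤ n + 1 := by exact_mod_cast hcard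
  have h4 : (1 / 2 + 1 / 2 * (1 / (n : ℝ))) * n = (n + 1) / 2 := by
    field_simp
  rw [h4]
  linarith

end circle

end Pool.Agent.W295.Trans
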