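import Mathlib
import Pool.Agent.W295.TransTwo
import Pool.Agent.W295.TransThree

/-!
# The asymptotic transversal ratios in dimensions two and three
-/

set_option autoImplicit false

namespace Pool.Agent.W295.Trans

open Set Filter Topology Pool.Agent.H523R3.Trans

/-- suprema of sets of ratios of circles have limit superior at most one half -/
lemma limsup_le_half (A : ℕ → Set ℝ)
    (hle : ∀ n, ∀ t ∈ A n, t ≤ 1 / 2 + 1 / 2 * (1 / (n : ℝ))) (hnn : ∀ n, ∀ t ∈ A n, 0 ≤ t) :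
    limsup (fun n => sSup (A n)) atTop ≤ 1 / 2 := by
  have hlim : Tendsto (fun n : ℕ => (1 / 2 + 1 / 2 * (1 / (n : ℝ)) : ℝ)) atTop (𝓝 (1 / 2)) := by
    have h := (tendsto_one_div_atTop_nhds_zero_nat (𝕜 := ℝ)).const_mul (1 / 2 : ℝ)
    have h2 := h.const_add (1 / 2 : ℝ)
    simpa using h2
  have hbd : ∀ n : ℕ, (fun n => sSup (A n)) n ≤ (fun n : ℕ => (1 / 2 + 1 / 2 * (1 / (n : ℝ)) : ℝ)) n :=
    fun n => Real.sSup_le (hle n) (by positivity)
  have hcob : IsCoboundedUnder (· ≤ ·) atTop (fun n => sSup (A n)) :=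
    IsCoboundedUnder.of_frequently_ge (a := 0)
      (Frequently.of_forall fun n => Real.sSup_nonneg (hnn n))
  calc limsup (fun n => sSup (A n)) atTop
      ≤ limsup (fun n : ℕ => (1 / 2 + 1 / 2 * (1 / (n : ℝ)) : ℝ)) atTop :=
        limsup_le_limsup (Eventually.of_forall hbd) hcob hlim.isBoundedUnder_le
    _ = 1 / 2 := hlim.limsup_eq

/-- limit superior at least one half -/
lemma half_le_limsup (A : ℕ → Set ℝ) (hle : ∀ n, ∀ t ∈ A n, t ≤ 1)
    (hge : ∀ q : ℕ, 0 < q → ∀ N : ℕ, ∃ n, N ≤ n ∧ ∃ t ∈ A n, 1 / 2 - 1 / (q : ℝ) ≤ t) :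
    1 / 2 ≤ limsup (fun n => sSup (A n)) atTop := by
  have hu : ∀ n, sSup (A n) ≤ 1 := fun n => Real.sSup_le (hle n) zero_le_one
  have hbdd : IsBoundedUnder (· ≤ ·) atTop (fun n => sSup (A n)) :=
    isBoundedUnder_of ⟨1, hu⟩
  have hfreq : ∀ q : ℕ, 0 < q → ∃ᶠ n in atTop, 1 / 2 - 1 / (q : ℝ) ≤ sSup (A n) := by
    intro q hq
    rw [frequently_atTop]
    intro N
    obtain ⟨n, hn, t, ht, h1⟩ := hge q hq N
    exact ⟨n, hn, h1.trans (le_csSup ⟨1, fun x hx => hle n x hx⟩ ht)⟩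
  have h1 : ∀ q : ℕ, 0 < q → 1 / 2 - 1 / (q : ℝ) ≤ limsup (fun n => sSup (A n)) atTop :=
    fun q hq => le_limsup_of_frequently_le (hfreq q hq) hbdd
  apply le_of_forall_pos_le_add
  intro ε hε
  obtain ⟨q, hq⟩ := exists_nat_gt (1 / ε)
  have hqpos : (0 : ℝ) < q := lt_trans (by positivity) hq
  have hq0 : 0 < q := by exact_mod_cast hqpos
  have h2 := h1 q hq0
  have h3 : 1 / (q : ℝ) ≤ ε := by
    rw [div_le_iff₀ hqpos]
    rw [div_lt_iff₀ hε] at hq
    linarith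
  linarith

/-- limit superior at most one -/
lemma limsup_le_one (A : ℕ → Set ℝ) (hle : ∀ n, ∀ t ∈ A n, t ≤ 1) (hnn : ∀ n, ∀ t ∈ A n, 0 ≤ t) :
    limsup (fun n => sSup (A n)) atTop ≤ 1 := by
  have hcob : IsCoboundedUnder (· ≤ ·) atTop (fun n => sSup (A n)) :=
    IsCoboundedUnder.of_frequently_ge (a := 0)
      (Frequently.of_forall fun n => Real.sSup_nonneg (hnn n))
  exact limsup_le_of_le hcob (Eventually.of_forall fun n => Real.sSup_le (hle n) zero_le_one)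

theorem tauP_le_one {d : ℕ} (hd : 0 < d) : tauP d ≤ 1 := by
  apply limsup_le_one
  · rintro n t ⟨p, hp, rfl⟩
    exact transversalRatio_le_one (isComplex_boundary hd hp)
  · rintro n t ⟨p, hp, rfl⟩
    exact transversalRatio_nonneg _

theorem tauS_le_one {d : ℕ} : tauS d ≤ 1 := by
  apply limsup_le_one
  · rintro n t ⟨Δ, hΔ, rfl⟩
    exact transversalRatio_le_one hΔ.1
  · rintro n t ⟨Δ, hΔ, rfl⟩
    exact transversalRatio_nonneg _

theorem tauP_two_le : tauP 2 ≤ 1 / 2 := by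
  apply limsup_le_half
  · rintro n t ⟨p, hp, rfl⟩
    exact ratio_le (isSimplicialSphere_boundary (by norm_num) hp)
  · rintro n t ⟨p, hp, rfl⟩
    exact transversalRatio_nonneg _

theorem tauS_two_le : tauS 2 ≤ 1 / 2 := by
  apply limsup_le_half
  · rintro n t ⟨Δ, hΔ, rfl⟩
    exact ratio_le hΔ
  · rintro n t ⟨Δ, hΔ, rfl⟩
    exact transversalRatio_nonneg _

lemma exists_three' (q : ℕ) (hq : 0 < q) (N : ℕ) : ∃ n, N ≤ n ∧ ∃ p : Fin n → E 3,
    IsSimplicialPolytope 3 p ∧ 1 / 2 - 1 / (q : ℝ) ≤ transversalRatio (boundary p) := by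
  obtain ⟨p, hp, h⟩ := exists_three (q + N) (by omega)
  refine ⟨4 * (q + N), by omega, p, hp, le_trans ?_ h⟩
  have hqR : (0 : ℝ) < q := by exact_mod_cast hq
  have hN : (0 : ℝ) ≤ N := Nat.cast_nonneg N
  have h1 : ((2 * (q + N) - 1 : ℕ) : ℝ) = 2 * (q + N) - 1 := by
    rw [Nat.cast_sub (by omega)]
    push_cast
    ring
  rw [h1]
  push_cast
  rw [le_div_iff₀ (by positivity)]
  have h2 : (1 / 2 - 1 / (q : ℝ)) * (4 * (q + N)) = 2 * (q + N) - 4 * ((q + N) / q) := by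
    field_simp
    ring
  rw [h2]
  have h3 : 1 ≤ ((q : ℝ) + N) / q := by
    rw [le_div_iff₀ hqR]
    linarith
  linarith

theorem half_le_tauP_three : 1 / 2 ≤ tauP 3 := by
  apply half_le_limsup
  · rintro n t ⟨p, hp, rfl⟩
    exact transversalRatio_le_one (isComplex_boundary (by norm_num) hp)
  · intro q hq N
    obtain ⟨n, hn, p, hp, h⟩ := exists_three' q hq N
    exact ⟨n, hn, _, ⟨p, hp, rfl⟩, h⟩

theorem half_le_tauS_three : 1 / 2 ≤ tauS 3 := by
  apply half_le_limsup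
  · rintro n t ⟨Δ, hΔ, rfl⟩
    exact transversalRatio_le_one hΔ.1
  · intro q hq N
    obtain ⟨n, hn, p, hp, h⟩ := exists_three' q hq N
    exact ⟨n, hn, _, ⟨boundary p, isSimplicialSphere_boundary (by norm_num) hp, rfl⟩, h⟩

end Pool.Agent.W295.Trans
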